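import Pool.Agent.H62.LV.Base
import Pool.Agent.Helper46.LV.P1
import Pool.Agent.Helper46.LV.P2
import Pool.Agent.Helper79.LV.P3

namespace Pool.Agent.H62.LV

open MeasureTheory Set Filter Topology

/-! ## P4: representation and comparison -/

theorem P4_slice {L : ℝ} {w : ℝ → ℝ → ℝ} (hw : Reg L w) {s : ℝ} (hs : 0 < s) :
    ContinuousOn (w s) (Ioo 0 L) := by
  have h1 : ContinuousOn (fun x : ℝ => ((s, x) : ℝ × ℝ)) (Ioo 0 L) := by fun_prop
  exact hw.cont.comp h1 (fun x hx => ⟨hs, hx⟩)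

theorem P4_intx {L : ℝ} (hL : 0 < L) {w : ℝ → ℝ → ℝ} (hw : Reg L w) {s : ℝ} (hs : 0 < s)
    {φ : ℝ → ℝ} (hφ : Continuous φ) : IntervalIntegrable (fun x => w s x * φ x) volume 0 L := by
  rw [intervalIntegrable_iff_integrableOn_Ioo_of_le hL.le]
  obtain ⟨C, hC⟩ := hw.bdd s
  obtain ⟨D, hD⟩ :=
    (isCompact_Icc (a := (0 : ℝ)) (b := L)).exists_bound_of_continuousOn hφ.continuousOn
  refine MeasureTheory.IntegrableOn.of_bound (by simp)
    (((P4_slice hw hs).mul hφ.continuousOn).aestronglyMeasurable measurableSet_Ioo) (C * D) ?_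
  filter_upwards [ae_restrict_mem measurableSet_Ioo] with x hx
  rw [norm_mul]
  have h1 := hC s ⟨hs, le_rfl⟩ x hx
  have h2 := hD x (Ioo_subset_Icc_self hx)
  exact mul_le_mul h1 h2 (norm_nonneg _) ((abs_nonneg _).trans h1)

theorem P4_cont {L : ℝ} (hL : 0 < L) {w : ℝ → ℝ → ℝ} (hw : Reg L w)
    {φ : ℝ → ℝ} (hφ : Continuous φ) (T : ℝ) :
    ContinuousOn (fun s => ∫ x in (0 : ℝ)..L, w s x * φ x) (Ioc 0 T) := by
  obtain ⟨C, hC⟩ := hw.bdd T
  obtain ⟨D, hD⟩ :=
    (isCompact_Icc (a := (0 : ℝ)) (b := L)).exists_bound_of_continuousOn hφ.continuousOn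
  have e : (fun s => ∫ x in (0 : ℝ)..L, w s x * φ x) =
      fun s => ∫ x in Ioo 0 L, w s x * φ x := by
    funext s
    rw [intervalIntegral.integral_of_le hL.le, integral_Ioc_eq_integral_Ioo]
  rw [e]
  refine continuousOn_of_dominated (bound := fun _ => C * D) ?_ ?_ ?_ ?_
  · intro s hs
    exact ((P4_slice hw hs.1).mul hφ.continuousOn).aestronglyMeasurable measurableSet_Ioo
  · intro s hs
    filter_upwards [ae_restrict_mem measurableSet_Ioo] with x hx
    rw [norm_mul]
    have h1 := hC s hs x hx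
    have h2 := hD x (Ioo_subset_Icc_self hx)
    exact mul_le_mul h1 h2 (norm_nonneg _) ((abs_nonneg _).trans h1)
  · exact integrable_const _
  · filter_upwards [ae_restrict_mem measurableSet_Ioo] with x hx
    have h1 : ContinuousOn (fun s : ℝ => ((s, x) : ℝ × ℝ)) (Ioc 0 T) := by fun_prop
    have h2 : ContinuousOn (fun s => w s x) (Ioc 0 T) :=
      hw.cont.comp h1 (fun s hs => ⟨hs.1, hx⟩)
    exact h2.mul continuousOn_const

theorem P4_ints {L : ℝ} (hL : 0 < L) {w : ℝ → ℝ → ℝ} (hw : Reg L w)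
    {φ : ℝ → ℝ} (hφ : Continuous φ) {T : ℝ} (hT : 0 ≤ T) :
    IntervalIntegrable (fun s => ∫ x in (0 : ℝ)..L, w s x * φ x) volume 0 T := by
  rw [intervalIntegrable_iff_integrableOn_Ioc_of_le hT]
  obtain ⟨C, hC⟩ := hw.bdd T
  obtain ⟨D, hD⟩ :=
    (isCompact_Icc (a := (0 : ℝ)) (b := L)).exists_bound_of_continuousOn hφ.continuousOn
  refine MeasureTheory.IntegrableOn.of_bound (by simp)
    ((P4_cont hL hw hφ T).aestronglyMeasurable measurableSet_Ioc) (C * D * |L - 0|) ?_
  filter_upwards [ae_restrict_mem measurableSet_Ioc] with s hs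
  rw [intervalIntegral.integral_of_le hL.le, integral_Ioc_eq_integral_Ioo,
    ← integral_Ioc_eq_integral_Ioo, ← intervalIntegral.integral_of_le hL.le]
  refine intervalIntegral.norm_integral_le_of_norm_le_const_ae ?_
  have hne : ∀ᵐ x : ℝ, x ≠ L := by
    have : (({L} : Set ℝ)ᶜ) ∈ ae (volume : Measure ℝ) := compl_mem_ae_iff.mpr (by simp)
    filter_upwards [this] with x hx using hx
  filter_upwards [hne] with x hx hx2
  rw [uIoc_of_le hL.le] at hx2
  have hx3 : x ∈ Ioo 0 L := ⟨hx2.1, lt_of_le_of_ne hx2.2 hx⟩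
  rw [norm_mul]
  have h1 := hC s hs x hx3
  have h2 := hD x (Ioo_subset_Icc_self hx3)
  exact mul_le_mul h1 h2 (norm_nonneg _) ((abs_nonneg _).trans h1)

theorem P4_bdata {l : ℝ → ℝ} (hl : BData l) {T : ℝ} (hT : 0 ≤ T) :
    IntervalIntegrable l volume 0 T := by
  rw [intervalIntegrable_iff_integrableOn_Ioc_of_le hT]
  obtain ⟨hm, C, hC⟩ := hl
  refine MeasureTheory.IntegrableOn.of_bound (by simp) hm.aestronglyMeasurable C ?_
  filter_upwards [ae_restrict_mem measurableSet_Ioc] with s hs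
  exact hC s hs.1

theorem P4_eig_cont (L : ℝ) (n : ℕ) : Continuous (eig L n) := by
  unfold eig
  fun_prop

theorem P4_deriv_eig (L : ℝ) (n : ℕ) (x : ℝ) : HasDerivAt (eig L n)
    ((n + 1) * Real.pi / L * Real.cos ((n + 1) * Real.pi * x / L)) x := by
  unfold eig
  have h1 : HasDerivAt (fun x : ℝ => ((n : ℝ) + 1) * Real.pi * x / L)
      (((n : ℝ) + 1) * Real.pi / L) x := by
    have := ((hasDerivAt_id x).const_mul (((n : ℝ) + 1) * Real.pi)).div_const L
    simpa using this
  exact h1.sin.congr_deriv (mul_comm _ _)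

theorem P4_deriv2_eig (L : ℝ) (n : ℕ) (x : ℝ) :
    deriv (deriv (eig L n)) x = -(mu L n) * eig L n x := by
  have h0 : deriv (eig L n) =
      fun x => (n + 1) * Real.pi / L * Real.cos ((n + 1) * Real.pi * x / L) := by
    funext y
    exact (P4_deriv_eig L n y).deriv
  rw [h0]
  have h1 : HasDerivAt (fun x : ℝ => ((n : ℝ) + 1) * Real.pi * x / L)
      (((n : ℝ) + 1) * Real.pi / L) x := by
    have := ((hasDerivAt_id x).const_mul (((n : ℝ) + 1) * Real.pi)).div_const L
    simpa using this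
  have h2 := (h1.cos.const_mul (((n : ℝ) + 1) * Real.pi / L)).deriv
  rw [h2]
  unfold mu eig
  ring

theorem P4_contDiff_eig (L : ℝ) (n : ℕ) : ContDiff ℝ 2 (eig L n) := by
  unfold eig
  fun_prop

theorem P4_eig_zero (L : ℝ) (n : ℕ) : eig L n 0 = 0 := by
  simp [eig]

theorem P4_eig_L {L : ℝ} (hL : 0 < L) (n : ℕ) : eig L n L = 0 := by
  unfold eig
  rw [mul_div_assoc, div_self hL.ne', mul_one]
  have := Real.sin_nat_mul_pi (n + 1)
  push_cast at this
  exact this

/-- one mode -/
theorem P4_mode {L : ℝ} (hL : 0 < L) {w₀ l r : ℝ → ℝ} {h w : ℝ → ℝ → ℝ}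
    (hw : Reg L w) (hh : Reg L h) (hl : BData l) (hr : BData r) (H : WeakHeat L w₀ l r h w)
    (K : ℝ) (n : ℕ) {t : ℝ} (ht : 0 < t) :
    ∫ x in (0 : ℝ)..L, w t x * eig L n x =
      Real.exp (-(K + mu L n) * t) * (∫ x in (0 : ℝ)..L, w₀ x * eig L n x) +
      ∫ s in (0 : ℝ)..t, Real.exp (-(K + mu L n) * (t - s)) *
        (((∫ x in (0 : ℝ)..L, h s x * eig L n x) +
          l s * ((n + 1) * Real.pi / L * Real.cos ((n + 1) * Real.pi * 0 / L)) -
          r s * ((n + 1) * Real.pi / L * Real.cos ((n + 1) * Real.pi * L / L))) +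
          K * ∫ x in (0 : ℝ)..L, w s x * eig L n x) := by
  have hc := P4_eig_cont L n
  have hib : ∀ {T : ℝ}, 0 ≤ T → IntervalIntegrable (fun s => (∫ x in (0 : ℝ)..L, h s x * eig L n x) +
          l s * ((n + 1) * Real.pi / L * Real.cos ((n + 1) * Real.pi * 0 / L)) -
          r s * ((n + 1) * Real.pi / L * Real.cos ((n + 1) * Real.pi * L / L))) volume 0 T :=
    fun hT => ((P4_ints hL hh hc hT).add ((P4_bdata hl hT).mul_const _)).sub
      ((P4_bdata hr hT).mul_const _)
  have key := voc (a := fun s => ∫ x in (0 : ℝ)..L, w s x * eig L n x)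
    (b := fun s => (∫ x in (0 : ℝ)..L, h s x * eig L n x) +
          l s * ((n + 1) * Real.pi / L * Real.cos ((n + 1) * Real.pi * 0 / L)) -
          r s * ((n + 1) * Real.pi / L * Real.cos ((n + 1) * Real.pi * L / L)))
    (a₀ := ∫ x in (0 : ℝ)..L, w₀ x * eig L n x) (μ := mu L n) (ν := K + mu L n) ht
    (hib ht.le) (P4_ints hL hw hc ht.le) ?_
  · rw [key]
    have e : K + mu L n - mu L n = K := by ring
    rw [e]
  · intro τ hτ
    rw [H (eig L n) (P4_contDiff_eig L n) (P4_eig_zero L n) (P4_eig_L hL n) τ hτ.1]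
    congr 1
    refine intervalIntegral.integral_congr_ae ?_
    refine Filter.Eventually.of_forall fun s hs => ?_
    rw [uIoc_of_le hτ.1.le] at hs
    rw [(P4_deriv_eig L n 0).deriv, (P4_deriv_eig L n L).deriv]
    have e1 : ∀ x, w s x * deriv (deriv (eig L n)) x + h s x * eig L n x =
        -(mu L n) * (w s x * eig L n x) + h s x * eig L n x := by
      intro x
      rw [P4_deriv2_eig]
      ring
    simp only [e1]
    rw [intervalIntegral.integral_add ((P4_intx hL hw hs.1 hc).const_mul _)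
      (P4_intx hL hh hs.1 hc), intervalIntegral.integral_const_mul]
    ring

/-- testing a weak solution against a finite sine sum -/
theorem weak_repr {L : ℝ} (hL : 0 < L) {w₀ l r : ℝ → ℝ} {h w : ℝ → ℝ → ℝ}
    (hw : Reg L w) (hh : Reg L h) (hw₀ : IntervalIntegrable w₀ volume 0 L)
    (hl : BData l) (hr : BData r) (H : WeakHeat L w₀ l r h w) (K : ℝ) (N : ℕ) (c : ℕ → ℝ)
    {t : ℝ} (ht : 0 < t) :
    ∫ x in (0 : ℝ)..L, w t x * flow L N c 0 x =
      Real.exp (-K * t) * (∫ x in (0 : ℝ)..L, w₀ x * flow L N c t x) +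
      ∫ s in (0 : ℝ)..t, Real.exp (-K * (t - s)) *
        ((∫ x in (0 : ℝ)..L, (h s x + K * w s x) * flow L N c (t - s) x) +
          l s * flow' L N c (t - s) 0 - r s * flow' L N c (t - s) L) := by
  have hsum : ∀ (f : ℝ → ℝ) (τ : ℝ),
      (∀ n, IntervalIntegrable (fun x => f x * eig L n x) volume 0 L) →
      ∫ x in (0 : ℝ)..L, f x * flow L N c τ x =
        ∑ n ∈ Finset.range N, c n * Real.exp (-(mu L n) * τ) * ∫ x in (0 : ℝ)..L, f x * eig L n x := by
    intro f τ hf
    have e : ∀ x, f x * flow L N c τ x =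
        ∑ n ∈ Finset.range N, c n * Real.exp (-(mu L n) * τ) * (f x * eig L n x) := by
      intro x
      unfold flow
      rw [Finset.mul_sum]
      refine Finset.sum_congr rfl fun n _ => ?_
      ring
    simp only [e]
    rw [intervalIntegral.integral_finsetSum fun n _ => (hf n).const_mul _]
    refine Finset.sum_congr rfl fun n _ => ?_
    rw [intervalIntegral.integral_const_mul]
  have hc := fun n => P4_eig_cont L n
  have hb : ∀ n, IntervalIntegrable (fun s => Real.exp (-(K + mu L n) * (t - s)) *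
        (((∫ x in (0 : ℝ)..L, h s x * eig L n x) +
          l s * ((n + 1) * Real.pi / L * Real.cos ((n + 1) * Real.pi * 0 / L)) -
          r s * ((n + 1) * Real.pi / L * Real.cos ((n + 1) * Real.pi * L / L))) +
          K * ∫ x in (0 : ℝ)..L, w s x * eig L n x)) volume 0 t := by
    intro n
    refine IntervalIntegrable.continuousOn_mul ?_ (by fun_prop)
    exact (((P4_ints hL hh (hc n) ht.le).add ((P4_bdata hl ht.le).mul_const _)).sub
      ((P4_bdata hr ht.le).mul_const _)).add ((P4_ints hL hw (hc n) ht.le).const_mul K)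
  rw [hsum (w t) 0 fun n => P4_intx hL hw ht (hc n),
    hsum w₀ t fun n => hw₀.mul_continuousOn (hc n).continuousOn, Finset.mul_sum]
  have e1 : ∀ n ∈ Finset.range N, c n * Real.exp (-(mu L n) * 0) *
      ∫ x in (0 : ℝ)..L, w t x * eig L n x =
      Real.exp (-K * t) * (c n * Real.exp (-(mu L n) * t) * ∫ x in (0 : ℝ)..L, w₀ x * eig L n x) +
      ∫ s in (0 : ℝ)..t, c n * (Real.exp (-(K + mu L n) * (t - s)) *
        (((∫ x in (0 : ℝ)..L, h s x * eig L n x) +
          l s * ((n + 1) * Real.pi / L * Real.cos ((n + 1) * Real.pi * 0 / L)) -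
          r s * ((n + 1) * Real.pi / L * Real.cos ((n + 1) * Real.pi * L / L))) +
          K * ∫ x in (0 : ℝ)..L, w s x * eig L n x)) := by
    intro n _
    rw [P4_mode hL hw hh hl hr H K n ht, intervalIntegral.integral_const_mul, mul_zero,
      Real.exp_zero, mul_one, mul_add]
    have e2 : Real.exp (-(K + mu L n) * t) = Real.exp (-K * t) * Real.exp (-(mu L n) * t) := by
      rw [← Real.exp_add]
      ring_nf
    rw [e2]
    ring
  rw [Finset.sum_congr rfl e1, Finset.sum_add_distrib,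
    ← intervalIntegral.integral_finsetSum fun n _ => (hb n).const_mul (c n)]
  congr 1
  refine intervalIntegral.integral_congr_ae ?_
  refine Filter.Eventually.of_forall fun s hs => ?_
  rw [uIoc_of_le ht.le] at hs
  have hi1 := fun n => P4_intx hL hh hs.1 (hc n)
  have hi2 := fun n => P4_intx hL hw hs.1 (hc n)
  have hi3 : ∀ n, IntervalIntegrable (fun x => (h s x + K * w s x) * eig L n x) volume 0 L := by
    intro n
    have e : (fun x => (h s x + K * w s x) * eig L n x) =
        fun x => h s x * eig L n x + K * (w s x * eig L n x) := by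
      funext x; ring
    rw [e]
    exact (hi1 n).add ((hi2 n).const_mul K)
  rw [hsum (fun x => h s x + K * w s x) (t - s) hi3]
  have e3 : ∀ n, ∫ x in (0 : ℝ)..L, (h s x + K * w s x) * eig L n x =
      (∫ x in (0 : ℝ)..L, h s x * eig L n x) + K * ∫ x in (0 : ℝ)..L, w s x * eig L n x := by
    intro n
    have e : (fun x => (h s x + K * w s x) * eig L n x) =
        fun x => h s x * eig L n x + K * (w s x * eig L n x) := by
      funext x; ring
    rw [e, intervalIntegral.integral_add (hi1 n) ((hi2 n).const_mul K),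
      intervalIntegral.integral_const_mul]
  simp only [e3]
  unfold flow'
  rw [Finset.mul_sum, Finset.mul_sum, ← Finset.sum_add_distrib, ← Finset.sum_sub_distrib,
    Finset.mul_sum]
  refine Finset.sum_congr rfl fun n _ => ?_
  have e4 : Real.exp (-(K + mu L n) * (t - s)) =
      Real.exp (-K * (t - s)) * Real.exp (-(mu L n) * (t - s)) := by
    rw [← Real.exp_add]
    ring_nf
  rw [e4]
  ring

/-- restarting a weak solution at time `t₀` -/
theorem weak_shift {L : ℝ} (hL : 0 < L) {w₀ l r : ℝ → ℝ} {h w : ℝ → ℝ → ℝ}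
    (hw : Reg L w) (hh : Reg L h) (hl : BData l) (hr : BData r) (H : WeakHeat L w₀ l r h w)
    {t₀ : ℝ} (ht₀ : 0 < t₀) :
    WeakHeat L (w t₀) (fun t => l (t₀ + t)) (fun t => r (t₀ + t)) (fun t x => h (t₀ + t) x)
      (fun t x => w (t₀ + t) x) := by
  intro φ hφ h0 h1 t ht
  have hφc : Continuous φ := hφ.continuous
  have hφ2 : Continuous (deriv (deriv φ)) := by
    have h3 : ContDiff ℝ 1 (deriv φ) := by
      have hφ' : ContDiff ℝ (1 + 1) φ := by rw [one_add_one_eq_two]; exact hφ
      exact (contDiff_succ_iff_deriv.mp hφ').2.2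
    exact h3.continuous_deriv le_rfl
  have hint : ∀ T : ℝ, 0 ≤ T → IntervalIntegrable (fun s =>
      (∫ x in (0 : ℝ)..L, (w s x * deriv (deriv φ) x + h s x * φ x)) +
          l s * deriv φ 0 - r s * deriv φ L) volume 0 T := by
    intro T hT
    refine (IntervalIntegrable.add ?_ ((P4_bdata hl hT).mul_const _)).sub
      ((P4_bdata hr hT).mul_const _)
    have h4 := (P4_ints hL hw hφ2 hT).add (P4_ints hL hh hφc hT)
    refine h4.congr ?_
    rw [uIoc_of_le hT]
    intro s hs
    simp only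
    rw [intervalIntegral.integral_add (P4_intx hL hw hs.1 hφ2) (P4_intx hL hh hs.1 hφc)]
  have k1 := H φ hφ h0 h1 (t₀ + t) (by linarith)
  have k2 := H φ hφ h0 h1 t₀ ht₀
  simp only
  rw [k1, k2]
  have k3 := intervalIntegral.integral_add_adjacent_intervals (hint t₀ ht₀.le)
    ((hint t₀ ht₀.le).symm.trans (hint (t₀ + t) (by linarith)))
  rw [← k3, ← add_assoc]
  congr 1
  have k4 := intervalIntegral.integral_comp_add_left (fun s =>
      (∫ x in (0 : ℝ)..L, (w s x * deriv (deriv φ) x + h s x * φ x)) +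
          l s * deriv φ 0 - r s * deriv φ L) t₀ (a := 0) (b := t)
  rw [add_zero] at k4
  exact k4.symm

theorem P4_flow_cont (L : ℝ) (N : ℕ) (c : ℕ → ℝ) (τ : ℝ) : Continuous (flow L N c τ) := by
  unfold flow eig
  fun_prop

/-- one improvement step of the comparison principle, for one component -/
theorem P4_step {L T K κ m lam : ℝ} (hL : 0 < L) (hK : 0 ≤ K) (hκ : 0 ≤ κ)
    (hm : 0 ≤ m) (hlam : lam = 2 * κ + 1)
    {w h : ℝ → ℝ → ℝ} {w₀ l r : ℝ → ℝ} (reg : Reg L w) (regh : Reg L h)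
    (i₀ : IntervalIntegrable w₀ volume 0 L) (p₀ : ∀ x ∈ Ioo 0 L, 0 ≤ w₀ x)
    (bl : BData l) (br : BData r)
    (nl : ∀ t, 0 < t → 0 ≤ l t) (nr : ∀ t, 0 < t → 0 ≤ r t)
    (weak : WeakHeat L w₀ l r h w)
    (hs : ∀ t ∈ Ioc 0 T, ∀ x ∈ Ioo 0 L,
      -(κ * (m * Real.exp (lam * t))) ≤ h t x + K * w t x) :
    ∀ t ∈ Ioc 0 T, ∀ x ∈ Ioo 0 L, -((m / 2) * Real.exp (lam * t)) ≤ w t x := by
  intro t ht
  obtain ⟨C, hC⟩ := reg.bdd t
  have hlam0 : 0 < lam := by rw [hlam]; linarith
  have key := detect hL (g := fun x => w t x + (m / 2) * Real.exp (lam * t))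
    (C := C + (m / 2) * Real.exp (lam * t))
    ((P4_slice reg ht.1).add continuousOn_const) ?_ ?_
  · intro x hx
    have := key x hx
    linarith
  · intro x hx
    have h1 := hC t ⟨ht.1, le_rfl⟩ x hx
    have h2 : 0 ≤ (m / 2) * Real.exp (lam * t) := by positivity
    calc |w t x + (m / 2) * Real.exp (lam * t)| ≤ |w t x| + |(m / 2) * Real.exp (lam * t)| :=
          abs_add_le _ _
      _ ≤ C + (m / 2) * Real.exp (lam * t) := by rw [abs_of_nonneg h2]; linarith
  · intro N c hc
    have hfc := fun τ => P4_flow_cont L N c τ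
    have hf : ∀ τ, 0 ≤ τ → (∀ x ∈ Icc 0 L, 0 ≤ flow L N c τ x) ∧ 0 ≤ flow' L N c τ 0 ∧
        flow' L N c τ L ≤ 0 := fun τ hτ => flow_nonneg hL hc hτ
    set I : ℝ := ∫ x in (0 : ℝ)..L, flow L N c 0 x with hI
    have hI0 : 0 ≤ I := intervalIntegral.integral_nonneg hL.le hc
    have e1 : (∫ x in (0 : ℝ)..L, (w t x + (m / 2) * Real.exp (lam * t)) * flow L N c 0 x) =
        (∫ x in (0 : ℝ)..L, w t x * flow L N c 0 x) + (m / 2) * Real.exp (lam * t) * I := by
      have e : ∀ x, (w t x + (m / 2) * Real.exp (lam * t)) * flow L N c 0 x =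
          w t x * flow L N c 0 x + (m / 2) * Real.exp (lam * t) * flow L N c 0 x := by
        intro x; ring
      simp only [e]
      rw [intervalIntegral.integral_add (P4_intx hL reg ht.1 (hfc 0))
        (((hfc 0).intervalIntegrable 0 L).const_mul _), intervalIntegral.integral_const_mul]
    rw [e1, weak_repr hL reg regh i₀ bl br weak K N c ht.1]
    have t1 : 0 ≤ Real.exp (-K * t) * (∫ x in (0 : ℝ)..L, w₀ x * flow L N c t x) := by
      refine mul_nonneg (Real.exp_pos _).le ?_
      rw [intervalIntegral.integral_of_le hL.le, integral_Ioc_eq_integral_Ioo]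
      refine setIntegral_nonneg measurableSet_Ioo fun x hx => ?_
      exact mul_nonneg (p₀ x hx) ((hf t ht.1.le).1 x (Ioo_subset_Icc_self hx))
    -- lower bound of the source
    have t2 : ∀ s ∈ Ioc 0 t, -(κ * m * I * Real.exp (lam * s)) ≤ Real.exp (-K * (t - s)) *
        ((∫ x in (0 : ℝ)..L, (h s x + K * w s x) * flow L N c (t - s) x) +
          l s * flow' L N c (t - s) 0 - r s * flow' L N c (t - s) L) := by
      intro s hs'
      have hts : 0 ≤ t - s := by linarith [hs'.2]
      obtain ⟨f1, f2, f3⟩ := hf (t - s) hts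
      have a1 : 0 ≤ l s * flow' L N c (t - s) 0 := mul_nonneg (nl s hs'.1) f2
      have a2 : r s * flow' L N c (t - s) L ≤ 0 := mul_nonpos_of_nonneg_of_nonpos (nr s hs'.1) f3
      have hint : IntervalIntegrable (fun x => (h s x + K * w s x) * flow L N c (t - s) x)
          volume 0 L := by
        have e : (fun x => (h s x + K * w s x) * flow L N c (t - s) x) =
            fun x => h s x * flow L N c (t - s) x + K * (w s x * flow L N c (t - s) x) := by
          funext x; ring
        rw [e]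
        exact (P4_intx hL regh hs'.1 (hfc _)).add ((P4_intx hL reg hs'.1 (hfc _)).const_mul K)
      have a3 : -(κ * (m * Real.exp (lam * s))) * I ≤
          ∫ x in (0 : ℝ)..L, (h s x + K * w s x) * flow L N c (t - s) x := by
        have b1 : (∫ x in (0 : ℝ)..L, -(κ * (m * Real.exp (lam * s))) * flow L N c (t - s) x) ≤
            ∫ x in (0 : ℝ)..L, (h s x + K * w s x) * flow L N c (t - s) x := by
          rw [intervalIntegral.integral_of_le hL.le, intervalIntegral.integral_of_le hL.le,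
            integral_Ioc_eq_integral_Ioo, integral_Ioc_eq_integral_Ioo]
          refine setIntegral_mono_on ?_ ?_ measurableSet_Ioo ?_
          · rw [← intervalIntegrable_iff_integrableOn_Ioo_of_le hL.le]
            exact ((hfc _).intervalIntegrable 0 L).const_mul _
          · rw [← intervalIntegrable_iff_integrableOn_Ioo_of_le hL.le]
            exact hint
          · intro x hx
            exact mul_le_mul_of_nonneg_right (hs s ⟨hs'.1, hs'.2.trans ht.2⟩ x hx)
              (f1 x (Ioo_subset_Icc_self hx))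
        rw [intervalIntegral.integral_const_mul] at b1
        have b2 : (∫ x in (0 : ℝ)..L, flow L N c (t - s) x) ≤ I := flow_integral_le hL hc hts
        have b3 : 0 ≤ κ * (m * Real.exp (lam * s)) := by positivity
        nlinarith
      have a4 : -(κ * m * I * Real.exp (lam * s)) ≤
          (∫ x in (0 : ℝ)..L, (h s x + K * w s x) * flow L N c (t - s) x) +
          l s * flow' L N c (t - s) 0 - r s * flow' L N c (t - s) L := by
        have : -(κ * (m * Real.exp (lam * s))) * I = -(κ * m * I * Real.exp (lam * s)) := by ring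
        linarith
      have a5 : Real.exp (-K * (t - s)) ≤ 1 := by
        rw [Real.exp_le_one_iff]
        nlinarith
      have a6 : 0 < Real.exp (-K * (t - s)) := Real.exp_pos _
      have a7 : 0 ≤ κ * m * I * Real.exp (lam * s) := by positivity
      nlinarith
    have t3 : -((m / 2) * Real.exp (lam * t) * I) ≤ ∫ s in (0 : ℝ)..t,
        Real.exp (-K * (t - s)) *
        ((∫ x in (0 : ℝ)..L, (h s x + K * w s x) * flow L N c (t - s) x) +
          l s * flow' L N c (t - s) 0 - r s * flow' L N c (t - s) L) := by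
      by_cases hi : IntervalIntegrable (fun s => Real.exp (-K * (t - s)) *
        ((∫ x in (0 : ℝ)..L, (h s x + K * w s x) * flow L N c (t - s) x) +
          l s * flow' L N c (t - s) 0 - r s * flow' L N c (t - s) L)) volume 0 t
      · have b1 : (∫ s in (0 : ℝ)..t, -(κ * m * I * Real.exp (lam * s))) ≤ ∫ s in (0 : ℝ)..t,
            Real.exp (-K * (t - s)) *
            ((∫ x in (0 : ℝ)..L, (h s x + K * w s x) * flow L N c (t - s) x) +
            l s * flow' L N c (t - s) 0 - r s * flow' L N c (t - s) L) := by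
          rw [intervalIntegral.integral_of_le ht.1.le, intervalIntegral.integral_of_le ht.1.le]
          refine setIntegral_mono_on ?_ ?_ measurableSet_Ioc t2
          · rw [← intervalIntegrable_iff_integrableOn_Ioc_of_le ht.1.le]
            exact Continuous.intervalIntegrable (by fun_prop) _ _
          · rw [← intervalIntegrable_iff_integrableOn_Ioc_of_le ht.1.le]
            exact hi
        refine le_trans ?_ b1
        have b2 : (∫ s in (0 : ℝ)..t, Real.exp (lam * s)) = (Real.exp (lam * t) - 1) / lam := by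
          have hd : ∀ s ∈ uIcc 0 t, HasDerivAt (fun s => Real.exp (lam * s) / lam)
              (Real.exp (lam * s)) s := by
            intro s _
            have h1 := (((hasDerivAt_id s).const_mul lam).exp).div_const lam
            simp only [id, mul_one] at h1
            rwa [mul_div_assoc, div_self hlam0.ne', mul_one] at h1
          rw [intervalIntegral.integral_eq_sub_of_hasDerivAt hd
            (Continuous.intervalIntegrable (by fun_prop) _ _)]
          rw [mul_zero, Real.exp_zero]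
          ring
        rw [intervalIntegral.integral_neg, intervalIntegral.integral_const_mul, b2, neg_le_neg_iff]
        have b3 : κ * ((Real.exp (lam * t) - 1) / lam) ≤ (1 / 2) * Real.exp (lam * t) := by
          rw [← mul_div_assoc, div_le_iff₀ hlam0, hlam]
          have : 0 < Real.exp ((2 * κ + 1) * t) := Real.exp_pos _
          nlinarith
        have b4 : 0 ≤ m * I := mul_nonneg hm hI0
        calc κ * m * I * ((Real.exp (lam * t) - 1) / lam)
            = m * I * (κ * ((Real.exp (lam * t) - 1) / lam)) := by ring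
          _ ≤ m * I * ((1 / 2) * Real.exp (lam * t)) := mul_le_mul_of_nonneg_left b3 b4
          _ = (m / 2) * Real.exp (lam * t) * I := by ring
      · rw [intervalIntegral.integral_undef hi]
        have : 0 ≤ (m / 2) * Real.exp (lam * t) * I := by positivity
        linarith
    linarith

/-- comparison principle for weakly coupled systems -/
theorem comparison {L T K κ : ℝ} (hL : 0 < L) (hT : 0 < T) (hK : 0 ≤ K) (hκ : 0 ≤ κ)
    {w₁ w₂ h₁ h₂ : ℝ → ℝ → ℝ} {w₁₀ w₂₀ l₁ r₁ l₂ r₂ : ℝ → ℝ}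
    (reg₁ : Reg L w₁) (reg₂ : Reg L w₂) (regh₁ : Reg L h₁) (regh₂ : Reg L h₂)
    (i₁ : IntervalIntegrable w₁₀ volume 0 L) (i₂ : IntervalIntegrable w₂₀ volume 0 L)
    (p₁ : ∀ x ∈ Ioo 0 L, 0 ≤ w₁₀ x) (p₂ : ∀ x ∈ Ioo 0 L, 0 ≤ w₂₀ x)
    (bl₁ : BData l₁) (br₁ : BData r₁) (bl₂ : BData l₂) (br₂ : BData r₂)
    (nl₁ : ∀ t, 0 < t → 0 ≤ l₁ t) (nr₁ : ∀ t, 0 < t → 0 ≤ r₁ t)
    (nl₂ : ∀ t, 0 < t → 0 ≤ l₂ t) (nr₂ : ∀ t, 0 < t → 0 ≤ r₂ t)
    (weak₁ : WeakHeat L w₁₀ l₁ r₁ h₁ w₁) (weak₂ : WeakHeat L w₂₀ l₂ r₂ h₂ w₂)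
    (coop : ∀ t ∈ Ioc 0 T, ∀ x ∈ Ioo 0 L, ∀ m : ℝ, 0 ≤ m → -m ≤ w₁ t x → -m ≤ w₂ t x →
      -(κ * m) ≤ h₁ t x + K * w₁ t x ∧ -(κ * m) ≤ h₂ t x + K * w₂ t x) :
    ∀ t ∈ Ioc 0 T, ∀ x ∈ Ioo 0 L, 0 ≤ w₁ t x ∧ 0 ≤ w₂ t x := by
  obtain ⟨C₁, hC₁⟩ := reg₁.bdd T
  obtain ⟨C₂, hC₂⟩ := reg₂.bdd T
  set lam : ℝ := 2 * κ + 1 with hlam
  have hlam0 : 0 < lam := by rw [hlam]; linarith
  set C : ℝ := max (max C₁ C₂) 0 with hC
  have hC0 : 0 ≤ C := le_max_right _ _
  have main : ∀ k : ℕ, ∀ t ∈ Ioc 0 T, ∀ x ∈ Ioo 0 L,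
      -((C / 2 ^ k) * Real.exp (lam * t)) ≤ w₁ t x ∧
      -((C / 2 ^ k) * Real.exp (lam * t)) ≤ w₂ t x := by
    intro k
    induction k with
    | zero =>
      intro t ht x hx
      have h1 := (abs_le.mp (hC₁ t ht x hx)).1
      have h2 := (abs_le.mp (hC₂ t ht x hx)).1
      have h3 : C₁ ≤ C := (le_max_left _ _).trans (le_max_left _ _)
      have h4 : C₂ ≤ C := (le_max_right _ _).trans (le_max_left _ _)
      have h5 : 1 ≤ Real.exp (lam * t) := by
        rw [Real.one_le_exp_iff]
        have := ht.1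
        positivity
      have h6 : C ≤ (C / 2 ^ 0) * Real.exp (lam * t) := by
        rw [pow_zero, div_one]
        nlinarith
      constructor <;> linarith
    | succ k ih =>
      have hm : 0 ≤ C / 2 ^ k := by positivity
      have hco : ∀ t ∈ Ioc 0 T, ∀ x ∈ Ioo 0 L,
          -(κ * ((C / 2 ^ k) * Real.exp (lam * t))) ≤ h₁ t x + K * w₁ t x ∧
          -(κ * ((C / 2 ^ k) * Real.exp (lam * t))) ≤ h₂ t x + K * w₂ t x := by
        intro t ht x hx
        exact coop t ht x hx _ (by positivity) (ih t ht x hx).1 (ih t ht x hx).2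
      have s1 := P4_step (T := T) (m := C / 2 ^ k) hL hK hκ hm hlam reg₁ regh₁ i₁ p₁ bl₁ br₁ nl₁ nr₁
        weak₁ (fun t ht x hx => (hco t ht x hx).1)
      have s2 := P4_step (T := T) (m := C / 2 ^ k) hL hK hκ hm hlam reg₂ regh₂ i₂ p₂ bl₂ br₂ nl₂ nr₂
        weak₂ (fun t ht x hx => (hco t ht x hx).2)
      have e : C / 2 ^ (k + 1) = C / 2 ^ k / 2 := by
        rw [pow_succ, div_div]
      intro t ht x hx
      rw [e]
      exact ⟨s1 t ht x hx, s2 t ht x hx⟩
  have hlim : ∀ t : ℝ, Tendsto (fun k : ℕ => -((C / 2 ^ k) * Real.exp (lam * t))) atTop (𝓝 0) := by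
    intro t
    have h1 : Tendsto (fun k : ℕ => C / (2 : ℝ) ^ k) atTop (𝓝 0) :=
      tendsto_const_nhds.div_atTop (tendsto_pow_atTop_atTop_of_one_lt (by norm_num))
    have h2 := (h1.mul_const (Real.exp (lam * t))).neg
    simpa using h2
  intro t ht x hx
  exact ⟨le_of_tendsto' (hlim t) fun k => (main k t ht x hx).1,
    le_of_tendsto' (hlim t) fun k => (main k t ht x hx).2⟩

end Pool.Agent.H62.LV
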